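import Pool.Agent.H88.CL.Basic

/-!
Row NST: the `N`-step perturbation.
-/

set_option autoImplicit false

open Pool.Agent.H88.CL Set Function Topology Metric Filter

namespace Pool.Agent.H80.CL

theorem pf_NST (h1 : T_NSU) (h2 : T_SUM) (h3 : T_ITA) (h4 : T_ITL) : T_NST := by
  intro d hd
  obtain ⟨C1, hC1, hu⟩ := h1 d hd
  refine ⟨2 * C1, by linarith, ?_⟩
  intro L F F' hc N b p q P T hN hfr hqp hsm hdj
  have hL0 := hc.pos
  have hL1 := hc.one_le
  have hN0 : (0 : ℝ) < N := by exact_mod_cast hN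
  obtain ⟨v, hv⟩ : ∃ v, v = P.symm (q - p) := ⟨_, rfl⟩
  rw [← hv] at hsm hdj ⊢
  have hv0 : v ≠ 0 := by
    intro h
    apply hqp
    rw [h] at hv
    have h5 : P.symm (q - p) = 0 := hv.symm
    have h6 : q - p = 0 := by
      have h7 := congrArg P h5
      rwa [ContinuousLinearEquiv.apply_symm_apply, map_zero] at h7
    exact sub_eq_zero.1 h6
  have hD : 0 < ‖v‖ := norm_pos_iff.2 hv0
  obtain ⟨z, hz0, hzN, hzb, hzs⟩ := hfr.str v
  have hex : ∀ l, ∃ u : E d → E d, l < N → (ContDiff ℝ 2 u ∧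
      (∀ y, ‖u y‖ ≤ C1 * L ^ (3 * N) * ‖v‖) ∧ (∀ y, ‖fderiv ℝ u y‖ ≤ C1 / N) ∧
      (∀ y y', ‖fderiv ℝ u y - fderiv ℝ u y'‖ ≤ C1 * L ^ N / (N * ‖v‖) * ‖y - y'‖) ∧
      u (F^[l] (p + P (z l))) = F^[l] (p + P (z (l + 1))) - F^[l] (p + P (z l)) ∧
      ∀ y, u y ≠ 0 → ∃ x, ‖P.symm (x - p) - (1 / 2 : ℝ) • v‖ ≤ 3 / 4 * ‖v‖ ∧ y = F^[l] x) := by
    intro l
    by_cases hl : l < N
    · obtain ⟨u, h5⟩ := hu L F F' hc N b p v (z l) (z (l + 1)) P T l hN hfr hl hv0 hsm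
        (hzb l hl.le) (hzb (l + 1) hl) (hzs l hl).1 (hzs l hl).2
      exact ⟨u, fun _ => h5⟩
    · exact ⟨0, fun h => absurd h hl⟩
  choose u hu' using hex
  obtain ⟨W, hW⟩ : ∃ W : Set (E d), W = {x | ‖P.symm (x - p) - (1 / 2 : ℝ) • v‖ ≤ 3 / 4 * ‖v‖} :=
    ⟨_, rfl⟩
  have hWc : IsCompact W := by
    have h5 : W = (fun y => p + P y) '' closedBall ((1 / 2 : ℝ) • v) (3 / 4 * ‖v‖) := by
      ext x
      rw [hW]
      constructor
      · intro hx
        refine ⟨P.symm (x - p), ?_, ?_⟩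
        · rw [mem_closedBall, dist_eq_norm]
          exact hx
        · simp
      · rintro ⟨y, hy, rfl⟩
        rw [mem_closedBall, dist_eq_norm] at hy
        simpa using hy
    rw [h5]
    exact (isCompact_closedBall _ _).image (continuous_const.add P.continuous)
  have hsm' : 100 * L ^ (3 * N) * ‖v‖ ≤ 1 := by
    have h5 : L ^ (3 * N) ≤ L ^ (13 * N) := pow_le_pow_right₀ hL1 (by omega)
    have h6 : 0 < L ^ (13 * N) := by positivity
    have h7 : 0 ≤ ‖p - b‖ := norm_nonneg _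
    calc 100 * L ^ (3 * N) * ‖v‖ ≤ 100 * L ^ (13 * N) * ‖v‖ := by
          apply mul_le_mul_of_nonneg_right _ hD.le
          linarith
      _ ≤ 100 * L ^ (13 * N) * (‖p - b‖ + ‖v‖) := by
          apply mul_le_mul_of_nonneg_left _ (by positivity)
          linarith
      _ ≤ 1 := hsm
  obtain ⟨U, hU, hUS, hU0⟩ := h2 d N (fun l => F^[l] '' W) u (C1 * L ^ (3 * N) * ‖v‖) (C1 / N)
    (C1 * L ^ N / (N * ‖v‖)) (by positivity) (by positivity) (by positivity)
    (by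
      intro l hl
      obtain ⟨a1, a2, a3, a4, a5, a6⟩ := hu' l hl
      refine ⟨hWc.image (h3 d L F F' hc l).1.continuous, a1, a2, a3, a4, ?_⟩
      intro y hy
      obtain ⟨x, hx, rfl⟩ := a6 y hy
      refine ⟨x, ?_, rfl⟩
      rw [hW]
      exact hx)
    (by
      rintro l hl l' hl' y ⟨x, hx, rfl⟩ y' ⟨x', hx', rfl⟩ hyy
      rw [hW] at hx hx'
      have hll := hdj l hl l' hl' x x' hx hx' hyy
      refine ⟨hll, ?_⟩
      subst hll
      apply lat_eq hyy
      have hx1 : ‖P.symm (x - p) - (1 / 2 : ℝ) • v‖ ≤ 3 / 4 * ‖v‖ := hx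
      have hx1' : ‖P.symm (x' - p) - (1 / 2 : ℝ) • v‖ ≤ 3 / 4 * ‖v‖ := hx'
      have b1 : x - x' = P (P.symm (x - x')) := by simp
      have b2 : P.symm (x - x') = (P.symm (x - p) - (1 / 2 : ℝ) • v) -
          (P.symm (x' - p) - (1 / 2 : ℝ) • v) := by
        rw [map_sub, map_sub, map_sub]
        abel
      have b3 : ‖P.symm (x - x')‖ ≤ 3 / 2 * ‖v‖ := by
        rw [b2]
        refine (norm_sub_le _ _).trans ?_
        linarith
      have b4 : ‖x - x'‖ ≤ L ^ (2 * N) * (3 / 2 * ‖v‖) := by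
        rw [b1]
        refine (hfr.hi _).trans ?_
        rw [← pow_mul, mul_comm N 2]
        exact mul_le_mul_of_nonneg_left b3 (by positivity)
      have b5 := (h3 d L F F' hc l).2.2.1 x x'
      have b6 : L ^ l ≤ L ^ N := pow_le_pow_right₀ hL1 hl.le
      calc ‖F^[l] x - F^[l] x'‖ ≤ L ^ l * ‖x - x'‖ := b5
        _ ≤ L ^ N * (L ^ (2 * N) * (3 / 2 * ‖v‖)) :=
            mul_le_mul b6 b4 (norm_nonneg _) (by positivity)
        _ = L ^ (3 * N) * ‖v‖ * (3 / 2) := by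
            rw [show 3 * N = N + 2 * N by ring, pow_add]
            ring
        _ < 1 := by linarith)
  refine ⟨U, fun l => p + P (z l), ?_, ?_, ?_, ?_, ?_⟩
  · apply hU.mono
    · have : 0 ≤ C1 * L ^ (3 * N) * ‖v‖ := by positivity
      linarith
    · have : 0 ≤ C1 / N := by positivity
      rw [mul_div_assoc]
      linarith
    · apply le_of_eq
      ring
  · show p + P (z 0) = q
    rw [hz0, hv, ContinuousLinearEquiv.apply_symm_apply]
    abel
  · show p + P (z N) = p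
    rw [hzN, map_zero, add_zero]
  · intro l hl
    obtain ⟨a1, a2, a3, a4, a5, a6⟩ := hu' l hl
    have h5 : F^[l] (p + P (z l)) ∈ F^[l] '' W := by
      refine ⟨_, ?_, rfl⟩
      rw [hW]
      show ‖P.symm (p + P (z l) - p) - (1 / 2 : ℝ) • v‖ ≤ 3 / 4 * ‖v‖
      have h6 : P.symm (p + P (z l) - p) = z l := by simp
      rw [h6]
      have h7 := hzb l hl.le
      linarith
    show F^[l] (p + P (z l)) + U (F^[l] (p + P (z l))) = F^[l] (p + P (z (l + 1)))
    rw [hUS l hl _ h5, a5]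
    abel
  · intro y hy
    obtain ⟨l, hl, y', ⟨x, hx, rfl⟩, hyy⟩ := hU0 y hy
    rw [hW] at hx
    exact ⟨l, hl, x, hx, hyy⟩

end Pool.Agent.H80.CL
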